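import Pool.Agent.H464.SQ.Tower
import Pool.Graph.R_pool_sql_team_seeded_c8625f6e.K4H53.BSX.Q11

/-!
# The leading term over abelian fields modulo squares of rational numbers

`E` is an elliptic curve over `ℚ` of level `N`, and `F ⊆ K` are abelian number fields of conductor prime to
`N` (subfields of a cyclotomic field `ℚ(ζ_n)`, `n` prime to `N`) such that every quadratic field contained in
`K` is contained in `F`.  (For example `[K : F]` is odd; or `K` is any abelian field and `F` is the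
compositum of its quadratic subfields.)  For a number field `k` let
`x*(k) = L*(E/k) √|Δ_k| / Ω_{E/k}`, where `L*(E/k)` is the leading coefficient of `L(E/k, s)` at `s = 1`.
We prove: if `L(E/F, s)` and `L(E/K, s)` have the same order of vanishing `r` at `s = 1` then

  `x*(K) = [K : F]^r q² x*(F)` for a rational number `q ≠ 0`.

This is what the conjecture of Birch and Swinnerton-Dyer predicts: the rank is `r` over both fields, so the
regulators satisfy `Reg(E/K) = [K : F]^r Reg(E/F) / [E(K) : E(F) + tors]²`, the orders of `Ш` and the squares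
of the orders of the torsion groups are squares, and the quotient of the products of the Tamagawa numbers
is a square (the number of the places of `K` over a bad prime is even, or the Tamagawa numbers do not change
modulo squares).  So the formula of the conjecture modulo squares of rational numbers is reduced from all
abelian fields `K` to the multiquadratic fields `F`, in particular from abelian fields of odd degree to `ℚ`.
There is no hypothesis on the order of vanishing `r` (other than that it is the same for both fields): the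
leading coefficients themselves are not known to be periods times rational numbers for `r ≥ 2`.
The exponent `r` of `[K : F]` comes out of the functional equation.

In towers of `p`-power conductor the hypothesis on the order of vanishing is proved, for every curve `E` and
every odd prime `p` that does not divide `N`: there is `j₀`, depending only on `E`, such that for `j ≥ j₀` and
all fields `F ⊆ K ⊂ ℚ(ζ_(p^∞))` with `K ∩ ℚ(ζ_(p^j)) ⊆ F` (for example all layers of the cyclotomic
`ℤ_p`-extension above a fixed one) the orders of vanishing are the same number `r`, and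
`x*(K) = [K : F]^r q² x*(F)`.  Here `r` is arbitrary.

Method. `x*(K) / x*(F)` is the product of the algebraic parts `A(χ)` of the values `L(E, χ, 1)` for the
characters `χ` of `K` that are not characters of `F`.  `A(χ^σ) = A(χ)^σ`, and
`A(χ) = w χ(-N) A(χ⁻¹)`.  If `w = 1` then the numbers `A(χ) / χ(g)`, `g² = -N` (suitably interpreted), are
real and one gets a square; if `w = -1` one divides by purely imaginary functions of `χ` of known product.
One goes from `F` to `K` in steps of prime degree; the steps of degree two need a different argument.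
For the towers: `L(E, χ, 1) ≠ 0` for the characters of large order (library, `TH940`).
-/

set_option autoImplicit false

open NumberField NumberField.InfinitePlace IsDedekindDomain WeierstrassCurve Filter Topology
open UpperHalfPlane MatrixGroups CongruenceSubgroup

namespace Pool.Agent.Results.MP_1a91b9_nt.ModuloSquares

open scoped Classical

open Pool.Agent.K4H53.BSX.D (pts realPeriod complexPeriod prim IsNewform)

/-- The equation `y² + y = x³ - x² - 10 x - 20` of the modular curve `X_0(11)`. -/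
def X11 : WeierstrassCurve ℤ := ⟨0, -1, 1, -10, -20⟩

/-- `powerSum t u k = α^k + β^k` if `α + β = t` and `α β = u`. -/
noncomputable def powerSum (t u : ℂ) : ℕ → ℂ
  | 0 => 2
  | 1 => t
  | k + 2 => t * powerSum t u (k + 1) - u * powerSum t u k

section

variable {K : Type} [Field K] [NumberField K]

/-- The prime number below `v`: the least prime factor of the norm. -/
noncomputable def prm (v : HeightOneSpectrum (𝓞 K)) : ℕ := (Ideal.absNorm v.asIdeal).minFac

/-- The residue degree of `v`. -/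
noncomputable def deg (v : HeightOneSpectrum (𝓞 K)) : ℕ :=
  (Ideal.absNorm v.asIdeal).factorization (prm v)

/-- The trace of Frobenius `a_v` of `E` over `K`.  If `v` does not divide `2 Δ` it is `N v + 1 - #E(k_v)`
(`pts` is the number of the affine points).  At the finitely many other places it is computed over `ℚ`:
if `p` is the prime below `v` and `f` is the residue degree then `a_v = α^f + β^f`, where
`α + β = a_p = p + 1 - #E(𝔽_p)`, and `α β = p` if `p` does not divide `Δ`, and `α β = 0` otherwise. -/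
noncomputable def trace (W : WeierstrassCurve ℤ) (v : HeightOneSpectrum (𝓞 K)) : ℂ :=
  if ((2 * W.Δ : ℤ) : 𝓞 K) ∈ v.asIdeal then
    powerSum ((prm v : ℂ) - (pts W (ZMod (prm v)) : ℂ))
      (if (prm v : ℤ) ∣ W.Δ then 0 else (prm v : ℂ)) (deg v)
  else (Ideal.absNorm v.asIdeal : ℂ) - (pts W (𝓞 K ⧸ v.asIdeal) : ℂ)

/-- The Euler factor of `L(E/K, s)` at `v`: `(1 - a_v N v^(-s) + N v^(1 - 2 s))⁻¹` if `v` does not divide
`Δ`, and `(1 - a_v N v^(-s))⁻¹` otherwise. -/
noncomputable def factor (W : WeierstrassCurve ℤ) (s : ℂ) (v : HeightOneSpectrum (𝓞 K)) : ℂ :=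
  (1 - trace W v * (Ideal.absNorm v.asIdeal : ℂ) ^ (-s) +
    if ((W.Δ : ℤ) : 𝓞 K) ∈ v.asIdeal then 0 else (Ideal.absNorm v.asIdeal : ℂ) ^ (1 - 2 * s))⁻¹

end

section

variable (K : Type) [Field K] [NumberField K]

/-- `L` is the function `L(E/K, s)`: entire, and equal to the Euler product for `Re s > 3/2`. -/
structure IsLFunction (W : WeierstrassCurve ℤ) (L : ℂ → ℂ) : Prop where
  entire : Differentiable ℂ L
  euler : ∀ s : ℂ, 3 / 2 < s.re → HasProd (factor (K := K) W s) (L s)

/-- `L(E/K, s)` vanishes at `s = 1` to the order `r`, and `a = L^{(r)}(E/K, 1) / r!` is its leading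
coefficient. -/
def HasLeadingTerm (W : WeierstrassCurve ℤ) (r : ℕ) (a : ℂ) : Prop :=
  ∃ L : ℂ → ℂ, IsLFunction K W L ∧ a ≠ 0 ∧
    Tendsto (fun s : ℂ => L s / (s - 1) ^ r) (𝓝[≠] 1) (𝓝 a)

/-- The period `Ω_{E/K}` of an equation that is minimal at all finite places of `K`:
`(∫_{E(ℝ)} |ω|)^{r₁} (2 ∫_{E(ℂ)} |ω ∧ ω̄|)^{r₂}`, `ω = dx / (2 y + a₁ x + a₃)`. -/
noncomputable def Omega (W : WeierstrassCurve ℤ) : ℝ :=
  realPeriod W ^ nrRealPlaces K * complexPeriod W ^ nrComplexPlaces K

/-- `x = x*(K)` is the number `L*(E/K) √|Δ_K| / Ω_{E/K}`; `r` is the order of vanishing. -/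
def HasQuotient (W : WeierstrassCurve ℤ) (r : ℕ) (x : ℂ) : Prop :=
  ∃ a : ℂ, HasLeadingTerm K W r a ∧ x = a * √|(discr K : ℝ)| / Omega K W

end

/-- `W` is the equation of an elliptic curve over `ℚ`; there is a newform `f` of `W` of level `N` such that
`c` times the periods of `2 π i f(z) dz` on `Γ₀(N)` are in the period lattice of
`dx / (2 y + a₁ x + a₃)`, which is the lattice with `g₂ = c₄ / 12` and `g₃ = c₆ / 216`.  (This is so for
the minimal equation of every elliptic curve over `ℚ` by the modularity theorem, for some integer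
`c ≠ 0`.) -/
structure Modular (W : WeierstrassCurve ℤ) (N : ℕ) (c : ℤ) : Prop where
  ne : W.Δ ≠ 0
  pos : N ≠ 0
  c_ne : c ≠ 0
  form : ∃ f : CuspForm (Gamma0 N : Subgroup (GL (Fin 2) ℝ)) 2, IsNewform W N f ∧
    ∃ Λ : PeriodPair, Λ.g₂ = (W.c₄ : ℂ) / 12 ∧ Λ.g₃ = (W.c₆ : ℂ) / 216 ∧
      ∀ γ ∈ Gamma0 N, ∀ z : ℍ,
        (c : ℂ) * (prim f ((γ • z : ℍ) : ℂ) - prim f (z : ℂ)) ∈ Λ.lattice

/-- The statement for the extension `K / F`: if the order of vanishing `r` is the same for both fields then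
`x*(K) = [K : F]^r q² x*(F)` with a rational number `q ≠ 0`; and
`c^([K : ℚ] - [F : ℚ]) [K : F]^r q²` is an integer. -/
def Square (W : WeierstrassCurve ℤ) (c : ℤ) (F K : Type) [Field F] [NumberField F] [Field K]
    [NumberField K] (d : ℕ) : Prop :=
  ∀ (r : ℕ) (x y : ℂ), HasQuotient F W r x → HasQuotient K W r y →
    ∃ q : ℚ, q ≠ 0 ∧ y = (d : ℂ) ^ r * (q : ℂ) ^ 2 * x ∧
      ∃ m : ℤ, (c : ℚ) ^ (Module.finrank ℚ K - Module.finrank ℚ F) * ((d : ℚ) ^ r * q ^ 2) = m

lemma powerSum_eq (t u : ℂ) : ∀ k, powerSum t u k = W165.CE.pw t u k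
  | 0 => rfl
  | 1 => rfl
  | k + 2 => by
    unfold powerSum W165.CE.pw
    rw [powerSum_eq t u (k + 1), powerSum_eq t u k]

lemma trace_eq {K : Type} [Field K] [NumberField K] (W : WeierstrassCurve ℤ)
    (v : HeightOneSpectrum (𝓞 K)) : trace W v = Pool.Agent.H464.SQ.tr W v := by
  unfold trace Pool.Agent.H464.SQ.tr
  by_cases h1 : ((2 * W.Δ : ℤ) : 𝓞 K) ∈ v.asIdeal
  · rw [if_pos h1, if_pos h1]
    exact powerSum_eq _ _ _
  · rw [if_neg h1, if_neg h1]
    rfl

lemma factor_eq {K : Type} [Field K] [NumberField K] (W : WeierstrassCurve ℤ) (s : ℂ)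
    (v : HeightOneSpectrum (𝓞 K)) : factor W s v = Pool.Agent.H464.SQ.fac W s v := by
  unfold factor Pool.Agent.H464.SQ.fac
  rw [trace_eq]

lemma isL {K : Type} [Field K] [NumberField K] {W : WeierstrassCurve ℤ} {L : ℂ → ℂ} :
    IsLFunction K W L ↔ Pool.Agent.H464.SQ.IsL W K L := by
  have h : ∀ s, factor (K := K) W s = Pool.Agent.H464.SQ.fac (K := K) W s :=
    fun s => funext fun v => factor_eq W s v
  constructor
  · rintro ⟨h1, h2⟩
    exact ⟨h1, fun s hs => by rw [← h]; exact h2 s hs⟩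
  · rintro ⟨h1, h2⟩
    exact ⟨h1, fun s hs => by rw [h]; exact h2 s hs⟩

lemma square_of (W : WeierstrassCurve ℤ) (N : ℕ) (c : ℤ) (hW : Modular W N c) (n : ℕ) [NeZero n]
    (hn : n.Coprime N) (M : Type) [Field M] [NumberField M] [IsCyclotomicExtension {n} ℚ M] :
    (∀ K : IntermediateField ℚ M, ∃ L : ℂ → ℂ, IsLFunction K W L) ∧
      ∀ F K : IntermediateField ℚ M, F ≤ K →
        (∀ Q : IntermediateField ℚ M, Q ≤ K → Module.finrank ℚ Q = 2 → Q ≤ F) →
        ∀ d : ℕ, Module.finrank ℚ K = d * Module.finrank ℚ F → Square W c F K d := by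
  obtain ⟨f, hf, Λ, hg₂, hg₃, hman⟩ := hW.form
  have hN : NeZero N := ⟨hW.pos⟩
  have hfI := Pool.Agent.K4H53.BSX.D.isForm hf
  obtain ⟨ε, hnf, -⟩ := hfI.newf
  obtain ⟨Op, Om, κ, hP⟩ := Pool.Agent.H464.SQ.exists_PD hW.ne Λ hg₂ hg₃ hW.c_ne hman
  obtain ⟨L, hL⟩ := Pool.Agent.H464.SQ.exists_fam hfI hnf n hn
  refine ⟨fun K => ⟨_, isL.2 (Pool.Agent.H464.SQ.isL_prod hW.ne hfI n hL M K)⟩, ?_⟩
  rintro F K hFK hq d hd r x y ⟨a, ⟨LF, hLF, ha, hla⟩, rfl⟩ ⟨b, ⟨LK, hLK, hb, hlb⟩, rfl⟩
  obtain ⟨q, hq0, h1, h2, -⟩ := Pool.Agent.H464.SQ.main hW.ne hfI hnf hP n hn M F K hFK hq LF LK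
    (isL.1 hLF) (isL.1 hLK) r a b ⟨ha, hla⟩ ⟨hb, hlb⟩ d hd
  exact ⟨q, hq0, h1, h2⟩

lemma tower_of (W : WeierstrassCurve ℤ) (N : ℕ) (c : ℤ) (hW : Modular W N c) :
    ∃ j₀ : ℕ, ∀ p : ℕ, p.Prime → p ≠ 2 → ¬ p ∣ N → ∀ j k : ℕ, j₀ ≤ j → j ≤ k →
      ∀ [NeZero (p ^ k)] (M : Type) [Field M] [NumberField M] [IsCyclotomicExtension {p ^ k} ℚ M]
        (C : IntermediateField ℚ M) [IsCyclotomicExtension {p ^ j} ℚ C] (F K : IntermediateField ℚ M),
        F ≤ K → K ⊓ C ≤ F → ∀ d : ℕ, Module.finrank ℚ K = d * Module.finrank ℚ F →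
        ∃ (r : ℕ) (x y : ℂ) (q : ℚ), HasQuotient F W r x ∧ HasQuotient K W r y ∧ q ≠ 0 ∧
          y = (d : ℂ) ^ r * (q : ℂ) ^ 2 * x := by
  have hWW := hW
  obtain ⟨f, hf, Λ, hg₂, hg₃, hman⟩ := hW.form
  have hN : NeZero N := ⟨hW.pos⟩
  have hfI := Pool.Agent.K4H53.BSX.D.isForm hf
  obtain ⟨ε, hnf, -⟩ := hfI.newf
  obtain ⟨Op, Om, κ, hP⟩ := Pool.Agent.H464.SQ.exists_PD hW.ne Λ hg₂ hg₃ hW.c_ne hman
  obtain ⟨j₀, h⟩ := Pool.Agent.H464.SQ.tower hW.ne hfI hnf hP
  refine ⟨j₀, ?_⟩
  intro p hp hp2 hpN j k hj hjk _ M _ _ _ C _ F K hFK hC d hd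
  obtain ⟨hq, LF, LK, r, a, b, hLF, hLK, ha, hb⟩ := h p hp hp2 hpN j k hj hjk M C F K hFK hC
  have hn : (p ^ k).Coprime N := Nat.Coprime.pow_left _ ((Nat.Prime.coprime_iff_not_dvd hp).2 hpN)
  have hx : HasQuotient F W r (a * √|(discr F : ℝ)| / Omega F W) :=
    ⟨a, ⟨LF, isL.2 hLF, ha.1, ha.2⟩, rfl⟩
  have hy : HasQuotient K W r (b * √|(discr K : ℝ)| / Omega K W) :=
    ⟨b, ⟨LK, isL.2 hLK, hb.1, hb.2⟩, rfl⟩
  obtain ⟨q, hq0, h1, -⟩ := (square_of W N c hWW (p ^ k) hn M).2 F K hFK hq d hd r _ _ hx hy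
  exact ⟨r, _, _, q, hx, hy, hq0, h1⟩

lemma modular11 : Modular X11 11 1 := by
  obtain ⟨Λ, h2, h3, hper⟩ := Pool.Agent.K4H53.BSX.lat11
  refine ⟨Pool.Agent.K4H53.BSX.Q11.disc_ne, by norm_num, by norm_num, Pool.Agent.W97.TW.f11,
    Pool.Agent.K4H53.BSX.Q11.newform11, Λ, h2, h3, ?_⟩
  intro γ hγ z
  obtain ⟨ω, hω, h⟩ := hper γ hγ
  have h1 : prim Pool.Agent.W97.TW.f11 ((γ • z : ℍ) : ℂ) =
    prim Pool.Agent.W97.TW.f11 (z : ℂ) + ω := h z
  rw [h1, Int.cast_one, one_mul, add_sub_cancel_left]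
  exact hω

/-- **Main theorem.** Let `W` be modular of level `N`, let `M = ℚ(ζ_n)` with `n` prime to `N`.

* For every subfield `K` of `M` the function `L(E/K, s)` is entire.
* Let `F ⊆ K` be subfields of `M`, `[K : F] = d`, such that every quadratic subfield of `K` is contained in
  `F`.  Then `x*(K) = d^r q² x*(F)` if the order of vanishing at `s = 1` is `r` for both fields.

Towers: there is `j₀` such that for all primes `p ≠ 2`, `p ∤ N`, all `j₀ ≤ j ≤ k`, `M = ℚ(ζ_(p^k))`,
`C = ℚ(ζ_(p^j)) ⊆ M` and all subfields `F ⊆ K` of `M` with `K ∩ C ⊆ F` the order of vanishing at `s = 1` is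
the same number `r` for `F` and `K`, and `x*(K) = d^r q² x*(F)`, `d = [K : F]`, `q ≠ 0` rational.

`X_0(11)` satisfies the hypothesis with `N = 11` and `c = 1`. -/
theorem result :
    (∀ (W : WeierstrassCurve ℤ) (N : ℕ) (c : ℤ), Modular W N c →
      ∀ (n : ℕ) [NeZero n], n.Coprime N →
      ∀ (M : Type) [Field M] [NumberField M] [IsCyclotomicExtension {n} ℚ M],
        (∀ K : IntermediateField ℚ M, ∃ L : ℂ → ℂ, IsLFunction K W L) ∧
        ∀ F K : IntermediateField ℚ M, F ≤ K →
          (∀ Q : IntermediateField ℚ M, Q ≤ K → Module.finrank ℚ Q = 2 → Q ≤ F) →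
          ∀ d : ℕ, Module.finrank ℚ K = d * Module.finrank ℚ F → Square W c F K d) ∧
    (∀ (W : WeierstrassCurve ℤ) (N : ℕ) (c : ℤ), Modular W N c →
      ∃ j₀ : ℕ, ∀ p : ℕ, p.Prime → p ≠ 2 → ¬ p ∣ N → ∀ j k : ℕ, j₀ ≤ j → j ≤ k →
      ∀ [NeZero (p ^ k)] (M : Type) [Field M] [NumberField M] [IsCyclotomicExtension {p ^ k} ℚ M]
        (C : IntermediateField ℚ M) [IsCyclotomicExtension {p ^ j} ℚ C] (F K : IntermediateField ℚ M),
        F ≤ K → K ⊓ C ≤ F → ∀ d : ℕ, Module.finrank ℚ K = d * Module.finrank ℚ F →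
        ∃ (r : ℕ) (x y : ℂ) (q : ℚ), HasQuotient F W r x ∧ HasQuotient K W r y ∧ q ≠ 0 ∧
          y = (d : ℂ) ^ r * (q : ℂ) ^ 2 * x) ∧
    Modular X11 11 1 :=
  ⟨fun W N c hW n _ hn M _ _ _ => square_of W N c hW n hn M, tower_of, modular11⟩

end Pool.Agent.Results.MP_1a91b9_nt.ModuloSquares
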